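import Pool.Agent.R538.Hit.Rej

/-!
# Hit: instances
-/

namespace Pool.Agent.R538.Hit

open Pool.Agent.H820R2.SS
open Pool.Agent.NPC.ANN (Forces rl pm us up ok3 ok3_iff rl_mem pm_mem Bd Bd_regs Bd_rules
  Bd_prems Bd_upd toNat_inj)

/-- Descriptions of Hit positions: the edges of the digraph, for each token type the list
of the edges which tokens of this type may use, and the placement: for each vertex the type of the
token on it, or `none`.  The vertices are the numbers smaller than the length of the placement. -/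
abbrev Desc : Type := List (ℕ × ℕ) × List (List (ℕ × ℕ)) × List (Option ℕ)

/-- The description is correct: the edges join distinct vertices, tokens use edges of the digraph,
and the types of the placed tokens exist. -/
def IsPosition (A : Desc) : Prop :=
  (∀ e ∈ A.1, e.1 < A.2.2.length ∧ e.2 < A.2.2.length ∧ e.1 ≠ e.2) ∧
  (∀ l ∈ A.2.1, ∀ e ∈ l, e ∈ A.1) ∧ ∀ i, some i ∈ A.2.2 → i < A.2.1.length

/-- The moves of the game. -/
def Mv (A : Desc) : (ℕ → Option ℕ) → (ℕ → Option ℕ) → Prop :=
  GMove (fun i u v => (u, v) ∈ A.2.1.getD i [])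

/-- The position which is described. -/
def start (A : Desc) : ℕ → Option ℕ := fun v => A.2.2.getD v none

/-- The player to move can force a win. -/
def MoverWins (A : Desc) : Prop := Forces (Mv A) true (start A)

/-- The other player can force a win. -/
def OtherWins (A : Desc) : Prop := Forces (Mv A) false (start A)

/-- Neither player can force a win. -/
def Drawn (A : Desc) : Prop := ¬ MoverWins A ∧ ¬ OtherWins A

/-! ### Renaming vertices -/

theorem transport {V : Type} [DecidableEq V] {E : ℕ → V → V → Prop} {E' : ℕ → ℕ → ℕ → Prop}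
    {ok : V → Prop} {f : V → ℕ} (hE : ∀ i u v, E i u v → ok u ∧ ok v)
    (hf : ∀ u v, ok u → ok v → f u = f v → u = v)
    (hE' : ∀ i x y, E' i x y ↔ ∃ u v, E i u v ∧ f u = x ∧ f v = y)
    {P : V → Option ℕ} {Q : ℕ → Option ℕ} (h1 : ∀ v, ok v → Q (f v) = P v)
    (h2 : ∀ v, ¬ ok v → P v = none) (h3 : ∀ x, (∀ v, ok v → f v ≠ x) → Q x = none) {w : Bool} :
    Forces (GMove E) w P ↔ Forces (GMove E') w Q := by
  -- the common part
  have key : ∀ (P : V → Option ℕ) (Q : ℕ → Option ℕ) (i : ℕ) (u v : V), ok u → ok v →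
      ((∀ v, ok v → Q (f v) = P v) ∧ (∀ v, ¬ ok v → P v = none) ∧
        (∀ x, (∀ v, ok v → f v ≠ x) → Q x = none)) →
      ((∀ v', ok v' → (Function.update (Function.update Q (f u) none) (f v) (some i)) (f v') =
          (Function.update (Function.update P u none) v (some i)) v') ∧
        (∀ v', ¬ ok v' → (Function.update (Function.update P u none) v (some i)) v' = none) ∧
        (∀ x, (∀ v', ok v' → f v' ≠ x) → (Function.update (Function.update Q (f u) none) (f v)
          (some i)) x = none)) := by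
    rintro P Q i u v hu hv ⟨h1, h2, h3⟩
    refine ⟨fun v' hv' => ?_, fun v' hv' => ?_, fun x hx => ?_⟩
    · simp only [Function.update_apply]
      by_cases h4 : v' = v
      · subst h4
        rw [if_pos rfl, if_pos rfl]
      · rw [if_neg h4, if_neg (fun h => h4 (hf _ _ hv' hv h))]
        by_cases h5 : v' = u
        · subst h5
          rw [if_pos rfl, if_pos rfl]
        · rw [if_neg h5, if_neg (fun h => h5 (hf _ _ hv' hu h))]
          exact h1 _ hv'
    · have h4 : v' ≠ v := fun h => hv' (h ▸ hv)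
      have h5 : v' ≠ u := fun h => hv' (h ▸ hu)
      rw [Function.update_of_ne h4, Function.update_of_ne h5]
      exact h2 _ hv'
    · rw [Function.update_of_ne (Ne.symm (hx v hv)), Function.update_of_ne (Ne.symm (hx u hu))]
      exact h3 _ hx
  refine Forces.bisim_iff (R := fun P Q => (∀ v, ok v → Q (f v) = P v) ∧
    (∀ v, ¬ ok v → P v = none) ∧ (∀ x, (∀ v, ok v → f v ≠ x) → Q x = none)) ?_ ?_ ⟨h1, h2, h3⟩
  · rintro P Q hR P' ⟨i, u, v, hu, he, rfl⟩
    obtain ⟨hou, hov⟩ := hE _ _ _ he
    exact ⟨_, ⟨i, f u, f v, by rw [hR.1 _ hou, hu], (hE' _ _ _).2 ⟨u, v, he, rfl, rfl⟩, rfl⟩,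
      key P Q i u v hou hov hR⟩
  · rintro P Q hR Q' ⟨i, x, y, hx, he, rfl⟩
    obtain ⟨u, v, he', rfl, rfl⟩ := (hE' _ _ _).1 he
    obtain ⟨hou, hov⟩ := hE _ _ _ he'
    exact ⟨_, ⟨i, u, v, by rw [← hR.1 _ hou, hx], he', rfl⟩, key P Q i u v hou hov hR⟩

/-! ### Labels -/

/-- Labels of vertices. -/
abbrev Lb : Type := ℕ × (ℕ × (ℕ × ℕ))

/-- numbers of challenge vertices -/
def oc : Option Bool → ℕ
  | none => 2
  | some b => b.toNat

theorem oc_inj {o o' : Option Bool} (h : oc o = oc o') : o = o' := by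
  rcases o with _ | _ | _ <;> rcases o' with _ | _ | _ <;> simp_all [oc]

/-- The label of a vertex. -/
def code : V → Lb
  | .G => (0, 0, 0, 0)
  | .I => (1, 0, 0, 0)
  | .A => (2, 0, 0, 0)
  | .B => (3, 0, 0, 0)
  | .e0 => (4, 0, 0, 0)
  | .R r => (5, r, 0, 0)
  | .X r i k => (6, r, i, k)
  | .U r i k => (7, r, i, k)
  | .S r i k => (8, r, i, k)
  | .Z r i k => (9, r, i, k)
  | .reg j (.p b) => (10, j, b.toNat, 0)
  | .reg j .q => (11, j, 0, 0)
  | .reg j (.c o) => (12, j, oc o, 0)
  | .reg j .t => (13, j, 0, 0)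

theorem code_inj : Function.Injective code := by
  intro a b h
  rcases a with _ | _ | _ | _ | _ | r | ⟨r, i, k⟩ | ⟨r, i, k⟩ | ⟨r, i, k⟩ | ⟨r, i, k⟩ |
    ⟨j, y | _ | o | _⟩ <;>
  rcases b with _ | _ | _ | _ | _ | r' | ⟨r', i', k'⟩ | ⟨r', i', k'⟩ | ⟨r', i', k'⟩ |
    ⟨r', i', k'⟩ | ⟨j', y' | _ | o' | _⟩ <;>
  first
    | rfl
    | (exfalso; revert h; simp [code]; done)
    | (simp [code] at h; simp [h]; done)
    | (simp only [code, Prod.mk.injEq, true_and, and_true] at h
       obtain ⟨rfl, h⟩ := h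
       rw [toNat_inj h]; done)
    | (simp only [code, Prod.mk.injEq, true_and, and_true] at h
       obtain ⟨rfl, h⟩ := h
       rw [oc_inj h])

/-- the labels of the used vertices -/
def okL (M : ARM) (z : Lb) : Bool :=
  let k := z.1
  let a := z.2.1
  let b := z.2.2.1
  let c := z.2.2.2
  (decide (k ≤ 4) && (decide (a = 0) && (decide (b = 0) && decide (c = 0)))) ||
  (decide (k = 5) && (decide (a < M.2.2.length) && (decide (b = 0) && decide (c = 0)))) ||
  (decide (k = 6) && ok3 M a b c) ||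
  ((decide (k = 7) || (decide (k = 8) || decide (k = 9))) && (decide (0 < c) && ok3 M a b c)) ||
  (decide (k = 10) && (decide (a < M.1.length + 1) && (decide (b < 2) && decide (c = 0)))) ||
  (decide (k = 12) && (decide (a < M.1.length + 1) && (decide (b < 3) && decide (c = 0)))) ||
  ((decide (k = 11) || decide (k = 13)) && (decide (a < M.1.length + 1) && (decide (b = 0) &&
    decide (c = 0))))

theorem okL_code (M : ARM) (v : V) : okL M (code v) = ok M v := by
  rcases v with _ | _ | _ | _ | _ | r | ⟨r, i, k⟩ | ⟨r, i, k⟩ | ⟨r, i, k⟩ | ⟨r, i, k⟩ |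
    ⟨j, y | _ | o | _⟩ <;> simp [okL, ok, code]
  all_goals first
    | congr; done
    | (cases y <;> simp <;> congr; done)
    | (rcases o with _ | _ | _ <;> simp [oc] <;> congr)

theorem okL_surj {M : ARM} {z : Lb} (hk : z.1 < 14) (h : okL M z = true) : ∃ v, code v = z := by
  obtain ⟨k, a, b, c⟩ := z
  simp only at hk
  interval_cases k <;> simp [okL] at h
  · obtain ⟨rfl, rfl, rfl⟩ := h
    exact ⟨.G, rfl⟩
  · obtain ⟨rfl, rfl, rfl⟩ := h
    exact ⟨.I, rfl⟩
  · obtain ⟨rfl, rfl, rfl⟩ := h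
    exact ⟨.A, rfl⟩
  · obtain ⟨rfl, rfl, rfl⟩ := h
    exact ⟨.B, rfl⟩
  · obtain ⟨rfl, rfl, rfl⟩ := h
    exact ⟨.e0, rfl⟩
  · obtain ⟨_, rfl, rfl⟩ := h
    exact ⟨.R a, rfl⟩
  · exact ⟨.X a b c, rfl⟩
  · exact ⟨.U a b c, rfl⟩
  · exact ⟨.S a b c, rfl⟩
  · exact ⟨.Z a b c, rfl⟩
  · obtain ⟨_, hb, rfl⟩ := h
    refine ⟨.reg a (.p (decide (b = 1))), ?_⟩
    interval_cases b <;> simp [code]
  · obtain ⟨_, rfl, rfl⟩ := h
    exact ⟨.reg a .q, rfl⟩
  · obtain ⟨_, hb, rfl⟩ := h
    interval_cases b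
    · exact ⟨.reg a (.c (some false)), rfl⟩
    · exact ⟨.reg a (.c (some true)), rfl⟩
    · exact ⟨.reg a (.c none), rfl⟩
  · obtain ⟨_, rfl, rfl⟩ := h
    exact ⟨.reg a .t, rfl⟩

/-- adjacency for control tokens -/
def cL (M : ARM) (z z' : Lb) : Bool :=
  let k := z.1
  let a := z.2.1
  let b := z.2.2.1
  let c := z.2.2.2
  let k' := z'.1
  let a' := z'.2.1
  let b' := z'.2.2.1
  let c' := z'.2.2.2
  (decide (k = 12) && decide (k' = 4)) ||
  (decide (k = 0) && (decide (k' = 2) || (decide (k' = 4) ||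
    (decide (k' = 5) && decide ((rl M a').1 = M.2.1))))) ||
  (decide (k = 1) && (decide (k' = 0) || decide (k' = 4))) ||
  (decide (k = 2) && (decide (k' = 3) || decide (k' = 4))) ||
  (decide (k = 3) && (decide (k' = 2) || decide (k' = 4))) ||
  (decide (k = 5) && (decide (k' = 4) ||
    ((decide (k' = 12) && (decide (b' < 2) && decide ((a', decide (b' = 1)) ∈ (rl M a).2.1))) ||
    (decide (k' = 6) && (decide (a = a') && decide (c' = (us M a' b').length)))))) ||
  (decide (k = 6) && (decide (k' = 4) ||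
    ((decide (k' = 7) && (decide (a = a') && (decide (b = b') && decide (c = c')))) ||
    (decide (k' = 5) && (decide (c = 0) && decide ((rl M a').1 = (pm M a b).1)))))) ||
  (decide (k = 7) && ((decide (k' = 8) && (decide (a = a') && (decide (b = b') &&
    decide (c = c')))) || ((decide (k' = 11) && decide (a' = (up M a b c).1)) ||
    (decide (k' = 12) && (decide (b' = 2) && decide (a' = (up M a b c).1)))))) ||
  (decide (k = 8) && ((decide (k' = 9) && (decide (a = a') && (decide (b = b') &&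
    decide (c = c')))) || ((decide (k' = 11) && decide (a' = (up M a b c).1)) ||
    (decide (k' = 12) && (decide (b' < 2) && (decide (a' = (up M a b c).1) &&
      decide (decide (b' = 1) = (up M a b c).2))))))) ||
  (decide (k = 9) && (decide (k' = 4) ||
    (decide (k' = 6) && (decide (a = a') && (decide (b = b') && decide (c = c' + 1))))))

/-- adjacency for register tokens -/
def rL (z z' : Lb) : Bool :=
  decide (z.2.1 = z'.2.1) && ((decide (z.1 = 10) && (decide (z'.1 = 11) ||
      (decide (z'.1 = 12) && (decide (z'.2.2.1 = 2) || decide (z.2.2.1 = z'.2.2.1))))) ||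
    ((decide (z.1 = 11) && (decide (z'.1 = 10) || decide (z'.1 = 13))) ||
      (decide (z.1 = 12) && decide (z'.1 = 13))))

theorem cL_code (M : ARM) (u v : V) : cL M (code u) (code v) = cadj M u v := by
  rcases u with _ | _ | _ | _ | _ | r | ⟨r, i, k⟩ | ⟨r, i, k⟩ | ⟨r, i, k⟩ | ⟨r, i, k⟩ |
    ⟨j, y | _ | o | _⟩ <;>
  rcases v with _ | _ | _ | _ | _ | r' | ⟨r', i', k'⟩ | ⟨r', i', k'⟩ | ⟨r', i', k'⟩ |
    ⟨r', i', k'⟩ | ⟨j', y' | _ | (_ | _ | _) | _⟩ <;> simp [cL, cadj, code, oc]
  all_goals congr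

theorem rL_code (u v : V) : rL (code u) (code v) = radjV u v := by
  rcases u with _ | _ | _ | _ | _ | r | ⟨r, i, k⟩ | ⟨r, i, k⟩ | ⟨r, i, k⟩ | ⟨r, i, k⟩ |
    ⟨j, (_ | _) | _ | o | _⟩ <;>
  rcases v with _ | _ | _ | _ | _ | r' | ⟨r', i', k'⟩ | ⟨r', i', k'⟩ | ⟨r', i', k'⟩ |
    ⟨r', i', k'⟩ | ⟨j', y' | _ | (_ | _ | _) | _⟩ <;> simp [rL, radjV, radj, code, oc]
  all_goals congr

/-! ### The instance -/

/-- all labels -/
def vs (M : ARM) : List Lb :=
  ((List.range 14) ×ˢ ((List.range (Bd M + 1)) ×ˢ ((List.range (Bd M + 1)) ×ˢ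
    (List.range (Bd M + 1))))).filter (okL M)

theorem vs_nodup (M : ARM) : (vs M).Nodup := by
  unfold vs
  apply List.Nodup.filter
  exact List.nodup_range.product (List.nodup_range.product
    (List.nodup_range.product List.nodup_range))

theorem mem_vs {M : ARM} {z : Lb} : z ∈ vs M ↔ ∃ v, ok M v = true ∧ code v = z := by
  unfold vs
  rw [List.mem_filter]
  constructor
  · rintro ⟨h1, h2⟩
    have h3 : z.1 < 14 := by
      obtain ⟨k, a, b, c⟩ := z
      simp only [List.mem_product, List.mem_range] at h1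
      exact h1.1
    obtain ⟨v, rfl⟩ := okL_surj h3 h2
    exact ⟨v, by rwa [okL_code] at h2, rfl⟩
  · rintro ⟨v, hv, rfl⟩
    refine ⟨?_, by rw [okL_code]; exact hv⟩
    have hB := Bd_regs M
    have hB2 := Bd_rules M
    rcases v with _ | _ | _ | _ | _ | r | ⟨r, i, k⟩ | ⟨r, i, k⟩ | ⟨r, i, k⟩ | ⟨r, i, k⟩ |
      ⟨j, y | _ | o | _⟩ <;>
    simp only [code, List.mem_product, List.mem_range]
    · omega
    · omega
    · omega
    · omega
    · omega
    · simp only [ok, decide_eq_true_eq] at hv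
      omega
    · simp only [ok] at hv
      obtain ⟨h1, h2, h3⟩ := ok3_iff.1 hv
      have h4 := Bd_prems h1 h2
      have h5 := Bd_upd hv
      omega
    · simp only [ok, Bool.and_eq_true] at hv
      obtain ⟨h1, h2, h3⟩ := ok3_iff.1 hv.2
      have h4 := Bd_prems h1 h2
      have h5 := Bd_upd hv.2
      omega
    · simp only [ok, Bool.and_eq_true] at hv
      obtain ⟨h1, h2, h3⟩ := ok3_iff.1 hv.2
      have h4 := Bd_prems h1 h2
      have h5 := Bd_upd hv.2
      omega
    · simp only [ok, Bool.and_eq_true] at hv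
      obtain ⟨h1, h2, h3⟩ := ok3_iff.1 hv.2
      have h4 := Bd_prems h1 h2
      have h5 := Bd_upd hv.2
      omega
    · simp only [ok, decide_eq_true_eq] at hv
      have : y.toNat ≤ 1 := by cases y <;> simp
      omega
    · simp only [ok, decide_eq_true_eq] at hv
      omega
    · simp only [ok, decide_eq_true_eq] at hv
      have : oc o ≤ 2 := by rcases o with _ | _ | _ <;> simp [oc]
      omega
    · simp only [ok, decide_eq_true_eq] at hv
      omega

/-- the number of a vertex -/
def nu (M : ARM) (v : V) : ℕ := (vs M).idxOf (code v)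

theorem nu_lt {M : ARM} {v : V} (h : ok M v = true) : nu M v < (vs M).length :=
  List.idxOf_lt_length_iff.2 (mem_vs.2 ⟨v, h, rfl⟩)

theorem nu_get {M : ARM} {v : V} (h : ok M v = true) (d : Lb) :
    (vs M).getD (nu M v) d = code v := by
  rw [List.getD_eq_getElem _ _ (nu_lt h)]
  exact List.getElem_idxOf (nu_lt h)

theorem nu_inj {M : ARM} {u v : V} (hu : ok M u = true) (hv : ok M v = true)
    (h : nu M u = nu M v) : u = v := by
  apply code_inj
  rw [← nu_get hu (0, 0, 0, 0), ← nu_get hv (0, 0, 0, 0), h]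

theorem nu_surj {M : ARM} {x : ℕ} (h : x < (vs M).length) : ∃ v, ok M v = true ∧ nu M v = x := by
  obtain ⟨v, hv, hc⟩ := mem_vs.1 (List.getElem_mem h)
  refine ⟨v, hv, ?_⟩
  unfold nu
  rw [hc]
  exact (vs_nodup M).idxOf_getElem x h

/-- the pairs of vertices satisfying a test on labels -/
def edg (l : List Lb) (t : Lb → Lb → Bool) : List (ℕ × ℕ) :=
  ((List.range l.length) ×ˢ (List.range l.length)).filter
    (fun p => t (l.getD p.1 (0, 0, 0, 0)) (l.getD p.2 (0, 0, 0, 0)))

/-- The instance; the control token starts at the vertex with label `(c, 0, 0, 0)`. -/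
def inst (c : ℕ) (M : ARM) : Desc :=
  (edg (vs M) (cL M) ++ edg (vs M) rL, [edg (vs M) (cL M), edg (vs M) rL],
    (vs M).map (fun z => bif decide (z = (c, 0, 0, 0)) then some 0
      else bif (decide (z.1 = 10) && (decide (z.2.2.1 = 0) && decide (z.2.1 < M.1.length))) ||
        (decide (z.1 = 12) && (decide (z.2.2.1 = 2) && decide (z.2.1 = M.1.length)))
      then some 1 else none))

theorem mem_edg {M : ARM} {t : Lb → Lb → Bool} {x y : ℕ} : (x, y) ∈ edg (vs M) t ↔
    ∃ u v, ok M u = true ∧ ok M v = true ∧ t (code u) (code v) = true ∧ nu M u = x ∧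
      nu M v = y := by
  unfold edg
  rw [List.mem_filter, List.mem_product, List.mem_range, List.mem_range]
  constructor
  · rintro ⟨⟨h1, h2⟩, h3⟩
    obtain ⟨u, hu, rfl⟩ := nu_surj h1
    obtain ⟨v, hv, rfl⟩ := nu_surj h2
    refine ⟨u, v, hu, hv, ?_, rfl, rfl⟩
    simpa only [nu_get hu, nu_get hv] using h3
  · rintro ⟨u, v, hu, hv, h, rfl, rfl⟩
    refine ⟨⟨nu_lt hu, nu_lt hv⟩, ?_⟩
    simpa only [nu_get hu, nu_get hv] using h

theorem inst_edges (c : ℕ) (M : ARM) (i x y : ℕ) : (x, y) ∈ (inst c M).2.1.getD i [] ↔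
    ∃ u v, EE M i u v ∧ nu M u = x ∧ nu M v = y := by
  rcases i with _ | _ | i
  · simp only [inst, List.getD_cons_zero]
    rw [mem_edg]
    constructor
    · rintro ⟨u, v, hu, hv, h, h1, h2⟩
      exact ⟨u, v, ⟨hu, hv, by rw [cL_code] at h; exact h⟩, h1, h2⟩
    · rintro ⟨u, v, ⟨hu, hv, h⟩, h1, h2⟩
      exact ⟨u, v, hu, hv, by rw [cL_code]; exact h, h1, h2⟩
  · simp only [inst, List.getD_cons_succ, List.getD_cons_zero]
    rw [mem_edg]
    constructor
    · rintro ⟨u, v, hu, hv, h, h1, h2⟩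
      exact ⟨u, v, ⟨hu, hv, by rw [rL_code] at h; exact h⟩, h1, h2⟩
    · rintro ⟨u, v, ⟨hu, hv, h⟩, h1, h2⟩
      exact ⟨u, v, hu, hv, by rw [rL_code]; exact h, h1, h2⟩
  · simp only [inst, List.getD_cons_succ, List.getD_nil, List.not_mem_nil, false_iff]
    rintro ⟨u, v, ⟨hu, hv, h⟩, h1, h2⟩
    simp at h

theorem inst_start {c : ℕ} {M : ARM} {v0 : V} (hc : code v0 = (c, 0, 0, 0))
    (h0 : ctrl v0 = true) (v : V) (hv : ok M v = true) :
    start (inst c M) (nu M v) = place (some v0, cf M fun _ => false) v := by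
  have h1 : start (inst c M) (nu M v) = (fun z : Lb => bif decide (z = (c, 0, 0, 0)) then some 0
      else bif (decide (z.1 = 10) && (decide (z.2.2.1 = 0) && decide (z.2.1 < M.1.length))) ||
        (decide (z.1 = 12) && (decide (z.2.2.1 = 2) && decide (z.2.1 = M.1.length)))
      then some 1 else none) (code v) := by
    unfold start inst
    simp only
    rw [List.getD_eq_getElem _ _ (by rw [List.length_map]; exact nu_lt hv), List.getElem_map]
    have h2 := nu_get hv (0, 0, 0, 0)
    rw [List.getD_eq_getElem _ _ (nu_lt hv)] at h2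
    rw [h2]
  rw [h1]
  simp only
  by_cases h2 : v = v0
  · subst h2
    rw [place_eq_zero rfl, hc]
    simp
  · have h3 : code v ≠ (c, 0, 0, 0) := by
      rw [← hc]
      exact fun h => h2 (code_inj h)
    rw [decide_eq_false h3, cond_false]
    by_cases h4 : ∀ j y, v = .reg j y → cf M (fun _ => false) j ≠ some y
    · rw [place_of (fun h => h2 (Option.some.inj h).symm) h4]
      rcases v with _ | _ | _ | _ | _ | r | ⟨r, i, k⟩ | ⟨r, i, k⟩ | ⟨r, i, k⟩ | ⟨r, i, k⟩ |
        ⟨j, y | _ | o | _⟩ <;> simp [code]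
      · have h5 := h4 _ _ rfl
        by_cases hj : j < M.1.length
        · rw [cf_of hj] at h5
          cases y
          · simp at h5
          · simp
        · simp [hj]
      · have h5 := h4 _ _ rfl
        rcases o with _ | _ | _
        · by_cases hj : j = M.1.length
          · subst hj
            rw [cf_tempo] at h5
            simp at h5
          · simp [hj]
        · simp [oc]
        · simp [oc]
    · push Not at h4
      obtain ⟨j, y, rfl, h5⟩ := h4
      rw [place_reg, if_neg (fun h => h2 (Option.some.inj h).symm), if_pos h5]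
      rcases cf_eq h5 with ⟨hj, rfl⟩ | ⟨rfl, rfl⟩
      · simp [code, hj]
      · simp [code, oc]

theorem inst_forces {c : ℕ} {M : ARM} {v0 : V} (hc : code v0 = (c, 0, 0, 0))
    (h0 : ctrl v0 = true) (hok : ok M v0 = true) (w : Bool) :
    Forces (Mv (inst c M)) w (start (inst c M)) ↔
    Forces (SStep M) w (some v0, cf M fun _ => false) := by
  have hi : Inv (some v0, cf M fun _ => false) := by
    intro j y h
    rw [Option.some.inj h] at h0
    simp [ctrl] at h0
  rw [forces_place hi]
  symm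
  refine transport (ok := fun v => ok M v = true) (f := nu M) (fun i u v h => ⟨h.1, h.2.1⟩)
    (fun u v => nu_inj) (inst_edges c M) (inst_start hc h0) (fun v hv => ?_) (fun x hx => ?_)
  · refine place_of (fun h => hv ?_) (fun j y h => ?_)
    · rw [← Option.some.inj h]
      exact hok
    · subst h
      have : ¬ j < M.1.length + 1 := by simpa [ok] using hv
      intro h5
      have h6 : cf M (fun _ => false) j = some y := h5
      rcases cf_eq h6 with ⟨hj, -⟩ | ⟨hj, -⟩ <;> omega
  · unfold start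
    rw [List.getD_eq_default]
    unfold inst
    simp only [List.length_map]
    by_contra hlt
    push Not at hlt
    obtain ⟨v, hv, hv'⟩ := nu_surj hlt
    exact hx v hv hv'

theorem inst_isPosition (c : ℕ) (M : ARM) : IsPosition (inst c M) := by
  have hlen : (inst c M).2.2.length = (vs M).length := by
    simp [inst]
  refine ⟨?_, ?_, ?_⟩
  · rw [hlen]
    rintro ⟨x, y⟩ he
    simp only [inst, List.mem_append] at he
    rcases he with he | he
    · obtain ⟨u, v, hu, hv, h, rfl, rfl⟩ := mem_edg.1 he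
      refine ⟨nu_lt hu, nu_lt hv, fun h2 => ?_⟩
      have h3 := nu_inj hu hv h2
      rw [cL_code] at h
      exact cadj_ne h h3
    · obtain ⟨u, v, hu, hv, h, rfl, rfl⟩ := mem_edg.1 he
      refine ⟨nu_lt hu, nu_lt hv, fun h2 => ?_⟩
      have h3 := nu_inj hu hv h2
      rw [rL_code] at h
      subst h3
      cases u <;> simp [radjV] at h
      exact radj_ne h rfl
  · intro l hl e he
    simp only [inst, List.mem_cons, List.not_mem_nil, or_false] at hl
    rcases hl with rfl | rfl
    · exact List.mem_append_left _ he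
    · exact List.mem_append_right _ he
  · intro i hi
    simp only [inst, List.mem_map] at hi
    obtain ⟨z, -, hz⟩ := hi
    show i < 2
    revert hz
    cases decide (z = (c, 0, 0, 0)) <;>
      cases ((decide (z.1 = 10) && (decide (z.2.2.1 = 0) && decide (z.2.1 < M.1.length))) ||
        (decide (z.1 = 12) && (decide (z.2.2.1 = 2) && decide (z.2.1 = M.1.length)))) <;>
      simp <;> omega

end Pool.Agent.R538.Hit
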