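import Pool.Agent.R538.Hit.Enc

/-!
# Hit: the instance is computed in polynomial time
-/

namespace Pool.Agent.R538.Hit

open Pool.Agent.NPC
open Pool.Agent.H820R2.SS
open Pool.Agent.NPC.ANN (Forces rl pm us up ok3 Bd poly_rl poly_pm poly_us poly_up poly_ok3
  uPoly_Bd)

variable {α : Type} [TEnc α]

theorem poly_okL {M : α → ARM} {z : α → Lb} (hM : NPC.Poly M) (hz : NPC.Poly z) :
    NPC.Poly (fun x => okL (M x) (z x)) := by
  unfold okL
  fun_prop

theorem poly_cL {M : α → ARM} {z z' : α → Lb} (hM : NPC.Poly M) (hz : NPC.Poly z)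
    (hz' : NPC.Poly z') : NPC.Poly (fun x => cL (M x) (z x) (z' x)) := by
  unfold cL
  fun_prop

theorem poly_rL {z z' : α → Lb} (hz : NPC.Poly z) (hz' : NPC.Poly z') :
    NPC.Poly (fun x => rL (z x) (z' x)) := by
  unfold rL
  fun_prop

theorem poly_vs : NPC.Poly (fun M : ARM => vs M) := by
  have h1 : NPC.Poly (fun M : ARM => List.range (Bd M + 1)) :=
    (UPoly.add uPoly_Bd (UPoly.const 1)).range
  have h2 : NPC.Poly (fun M : ARM => ((List.range 14) ×ˢ ((List.range (Bd M + 1)) ×ˢ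
      ((List.range (Bd M + 1)) ×ˢ (List.range (Bd M + 1)))) : List Lb)) := by
    fun_prop
  unfold vs
  refine NPC.Poly.filter h2 ?_
  exact poly_okL (M := fun p : ARM × Lb => p.1) (z := fun p => p.2) (by fun_prop) (by fun_prop)

theorem poly_edg {t : ARM → Lb → Lb → Bool}
    (ht : NPC.Poly (fun p : ARM × (Lb × Lb) => t p.1 p.2.1 p.2.2)) :
    NPC.Poly (fun M : ARM => edg (vs M) (t M)) := by
  have h0 := poly_vs
  have h1 : NPC.Poly (fun M : ARM => List.range (vs M).length) := (UPoly.length poly_vs).range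
  have h2 : NPC.Poly (fun M : ARM => ((List.range (vs M).length) ×ˢ
      (List.range (vs M).length) : List (ℕ × ℕ))) := by
    fun_prop
  unfold edg
  refine NPC.Poly.filter h2 ?_
  have h3 : NPC.Poly (fun p : ARM × (ℕ × ℕ) => vs p.1) := h0.comp (NPC.Poly.fst NPC.Poly.id)
  exact ht.comp (f := fun p : ARM × (ℕ × ℕ) => (p.1, ((vs p.1).getD p.2.1 (0, 0, 0, 0),
    (vs p.1).getD p.2.2 (0, 0, 0, 0)))) (by fun_prop)

theorem poly_inst (c : ℕ) : NPC.Poly (fun M : ARM => inst c M) := by
  have h0 := poly_vs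
  have h1 : NPC.Poly (fun M : ARM => edg (vs M) (cL M)) := by
    refine poly_edg (t := fun M => cL M) ?_
    exact poly_cL (M := fun p : ARM × (Lb × Lb) => p.1) (z := fun p => p.2.1)
      (z' := fun p => p.2.2) (by fun_prop) (by fun_prop) (by fun_prop)
  have h2 : NPC.Poly (fun M : ARM => edg (vs M) rL) := by
    refine poly_edg (t := fun _ => rL) ?_
    exact poly_rL (z := fun p : ARM × (Lb × Lb) => p.2.1)
      (z' := fun p => p.2.2) (by fun_prop) (by fun_prop)
  unfold inst
  fun_prop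

end Pool.Agent.R538.Hit
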