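import Pool.Agent.R538.Hit.Pure

/-!
# Hit: the simulation
-/

namespace Pool.Agent.R538.Hit

open Pool.Agent.H820R2.SS Finset
open Pool.Agent.NPC.ANN (Forces rl pm us up ok3 ok3_iff rl_mem pm_mem up_lt upd_take upd_nil
  upd_take_update)

variable {M : ARM}

/-- all registers hold values -/
def cf (M : ARM) (σ : ℕ → Bool) : ℕ → Option Y := fun j =>
  if j < M.1.length then some (.p (σ j)) else
    if j = M.1.length then some (.c none) else none

/-- register `j` is lifted -/
def lf (M : ARM) (σ : ℕ → Bool) (j : ℕ) : ℕ → Option Y := Function.update (cf M σ) j (some .q)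

theorem cf_of {σ : ℕ → Bool} {j : ℕ} (hj : j < M.1.length) : cf M σ j = some (.p (σ j)) := by
  rw [cf, if_pos hj]

theorem cf_tempo {σ : ℕ → Bool} : cf M σ M.1.length = some (.c none) := by
  simp [cf]

theorem cf_eq {σ : ℕ → Bool} {j : ℕ} {y : Y} (h : cf M σ j = some y) :
    (j < M.1.length ∧ y = .p (σ j)) ∨ (j = M.1.length ∧ y = .c none) := by
  unfold cf at h
  split_ifs at h with h1 h2
  · exact Or.inl ⟨h1, (Option.some.inj h).symm⟩
  · exact Or.inr ⟨h2, (Option.some.inj h).symm⟩

theorem nq_cf (σ : ℕ → Bool) : sm val (M.1.length + 1) (cf M σ) = 1 := by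
  unfold sm
  rw [Finset.sum_range_succ, cf_tempo]
  have : ∑ x ∈ range M.1.length, val (cf M σ x) = 0 := by
    refine Finset.sum_eq_zero fun j hj => ?_
    rw [cf_of (mem_range.1 hj)]
    rfl
  rw [this]
  rfl

theorem nq_lf {σ : ℕ → Bool} {j : ℕ} (hj : j < M.1.length) :
    sm val (M.1.length + 1) (lf M σ j) = 2 := by
  have h := sm_update val (show j < M.1.length + 1 by omega) (cf M σ) (some .q)
  rw [nq_cf σ, cf_of hj] at h
  show sm val (M.1.length + 1) (Function.update (cf M σ) j (some .q)) = 2
  simpa [val] using h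

theorem lf_self {σ : ℕ → Bool} {j : ℕ} : lf M σ j j = some .q := by simp [lf]

theorem lf_ne {σ : ℕ → Bool} {j i : ℕ} (h : i ≠ j) : lf M σ j i = cf M σ i := by simp [lf, h]

theorem lf_set {σ : ℕ → Bool} {j : ℕ} (hj : j < M.1.length) (b : Bool) :
    Function.update (lf M σ j) j (some (.p b)) = cf M (Function.update σ j b) := by
  funext i
  simp only [lf, Function.update_apply, cf]
  split_ifs with h1 h2 h3 <;> simp_all

/-- control vertices -/
def ctrl : V → Bool
  | .e0 => false
  | .reg _ _ => false
  | _ => true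

/-- moving a token of value zero to a place of value one, or conversely -/
theorem nq_move {ρ : ℕ → Option Y} {j : ℕ} {y y' : Y} (hj : j < M.1.length + 1)
    (h : radj y y' = true) (ho : ρ j = some y) :
    (sm val (M.1.length + 1) (Function.update ρ j (some y')) +
      sm val (M.1.length + 1) ρ) % 2 = 1 := by
  have hu := sm_update val hj ρ (some y')
  rw [ho] at hu
  have h1 : val (some y) + val (some y') = 1 := by
    cases y <;> cases y' <;> simp_all [radj, val]
  omega

/-- Moves from a control vertex when all registers hold values: `hreg` says that a challenge at a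
challenge vertex can be hit. -/
theorem step_cf {v : V} {σ : ℕ → Bool} {s' : St} (hv : ctrl v = true)
    (hreg : ∀ j y, cadj M v (.reg j y) = true → j < M.1.length ∧ (y = .q ∨
      ∃ o, y = .c o ∧ radj (.p (σ j)) (.c o) = true))
    (h : SStep M (some v, cf M σ) s') : Forces (SStep M) true s' ∨
      (∃ v', ctrl v' = true ∧ ok M v' = true ∧ cadj M v v' = true ∧ s' = (some v', cf M σ)) ∨
      (∃ j, j < M.1.length ∧ s' = (some v, lf M σ j)) ∨
      ∃ ρ, s' = (some v, ρ) ∧ sm val (M.1.length + 1) ρ % 2 = 0 ∧ ∀ j, ρ j ≠ some .q := by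
  cases h with
  | @ctl _ v' _ h1 h2 h hf =>
    by_cases hc : ctrl v' = true
    · exact Or.inr (Or.inl ⟨v', hc, h2, h, rfl⟩)
    · left
      cases v' with
      | e0 =>
        refine pure_win (Or.inr (Or.inl rfl)) (fun j o h => by simp at h) ?_
        rw [nq_cf]
        simp [ce]
      | reg j y =>
        obtain ⟨hj, rfl | ⟨o, rfl, ho⟩⟩ := hreg j y h
        · refine pure_win (Or.inr (Or.inr (Or.inl ⟨j, rfl⟩))) (fun j o h => by simp at h) ?_
          rw [nq_cf]
          simp [ce]
        · exact win_hit (b := σ j) (by omega) (cf_of hj) ho (by rw [nq_cf])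
      | _ => simp [ctrl] at hc
  | @cap _ j y _ h1 h2 h ho =>
    exfalso
    obtain ⟨hj, h3⟩ := hreg j y h
    rcases cf_eq ho with ⟨_, rfl⟩ | ⟨h4, _⟩
    · rcases h3 with h3 | ⟨o, h3, _⟩ <;> simp at h3
    · omega
  | @rg _ j y y' _ hj h ho hc =>
    right; right
    rcases cf_eq ho with ⟨hj', rfl⟩ | ⟨rfl, rfl⟩
    · by_cases hq : y' = .q
      · subst hq
        exact Or.inl ⟨j, hj', rfl⟩
      · right
        refine ⟨_, rfl, ?_, ?_⟩
        · have := nq_move hj h ho
          rw [nq_cf] at this
          omega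
        · intro j'
          simp only [Function.update_apply]
          split_ifs with h3
          · exact fun h4 => hq (Option.some.inj h4)
          · intro h4
            rcases cf_eq h4 with ⟨_, h5⟩ | ⟨_, h5⟩ <;> simp at h5
    · right
      refine ⟨_, rfl, ?_, ?_⟩
      · have := nq_move hj h ho
        rw [nq_cf] at this
        omega
      · intro j'
        simp only [Function.update_apply]
        split_ifs with h3
        · cases y' <;> simp_all [radj]
        · intro h4
          rcases cf_eq h4 with ⟨_, h5⟩ | ⟨_, h5⟩ <;> simp at h5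
  | rcap hj h ho => simp [ctrl] at hv

/-- Moves from a plain control vertex. -/
theorem step_plain {v : V} {σ : ℕ → Bool} {s' : St} (hv : ctrl v = true) (hk : ok M v = true)
    (he : cadj M v .e0 = true)
    (hreg : ∀ j y, cadj M v (.reg j y) = true → j < M.1.length ∧ (y = .q ∨
      ∃ o, y = .c o ∧ radj (.p (σ j)) (.c o) = true))
    (h : SStep M (some v, cf M σ) s') : Forces (SStep M) true s' ∨
      (∃ v', ctrl v' = true ∧ ok M v' = true ∧ cadj M v v' = true ∧ s' = (some v', cf M σ)) := by
  rcases step_cf hv hreg h with h1 | h1 | ⟨j, hj, rfl⟩ | ⟨ρ, rfl, h1, h2⟩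
  · exact Or.inl h1
  · exact Or.inr h1
  · exact Or.inl (win_e0 hk he (by rw [nq_lf hj]))
  · exact Or.inl (win_e0 hk he h1)

/-- Moves from a vertex of an update when all registers hold values; `j₀` is the register which is
updated. -/
theorem step_upd {v : V} {σ : ℕ → Bool} {j₀ : ℕ} {s' : St} (hv : ctrl v = true)
    (hk : ok M v = true) (hj₀ : j₀ < M.1.length) (hq : cadj M v (.reg j₀ .q) = true)
    (hreg : ∀ j y, cadj M v (.reg j y) = true → j < M.1.length ∧ (y = .q ∨
      ∃ o, y = .c o ∧ radj (.p (σ j)) (.c o) = true))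
    (h : SStep M (some v, cf M σ) s') : Forces (SStep M) true s' ∨
      (∃ v', ctrl v' = true ∧ ok M v' = true ∧ cadj M v v' = true ∧ s' = (some v', cf M σ)) ∨
      s' = (some v, lf M σ j₀) := by
  rcases step_cf hv hreg h with h1 | h1 | ⟨j, hj, rfl⟩ | ⟨ρ, rfl, h1, h2⟩
  · exact Or.inl h1
  · exact Or.inr (Or.inl h1)
  · by_cases hjj : j = j₀
    · subst hjj
      exact Or.inr (Or.inr rfl)
    · left
      refine win_chq hk (by omega) hq ?_ (by rw [nq_lf hj])
      rw [lf_ne (Ne.symm hjj)]
      intro h4
      rcases cf_eq h4 with ⟨_, h5⟩ | ⟨_, h5⟩ <;> simp at h5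
  · exact Or.inl (win_chq hk (by omega) hq (h2 _) h1)

/-- Moves from a vertex of an update when the register is lifted. -/
theorem step_lf {v : V} {σ : ℕ → Bool} {j : ℕ} {o : Option Bool} {s' : St} (hv : ctrl v = true)
    (hk : ok M v = true) (hj : j < M.1.length)
    (hc : cadj M v (.reg j (.c o)) = true)
    (hreg : ∀ j' y, cadj M v (.reg j' y) = true → j' = j ∧ (y = .q ∨ y = .c o))
    (he : cadj M v .e0 = false)
    (h : SStep M (some v, lf M σ j) s') : Forces (SStep M) true s' ∨
      (∃ v', ctrl v' = true ∧ ok M v' = true ∧ cadj M v v' = true ∧ s' = (some v', lf M σ j)) ∨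
      ∃ b, s' = (some v, cf M (Function.update σ j b)) := by
  cases h with
  | @ctl _ v' _ h1 h2 h hf =>
    by_cases hc : ctrl v' = true
    · exact Or.inr (Or.inl ⟨v', hc, h2, h, rfl⟩)
    · left
      cases v' with
      | e0 => rw [he] at h; exact absurd h (by decide)
      | reg j' y =>
        obtain ⟨rfl, rfl | rfl⟩ := hreg j' y h
        · exact absurd lf_self (hf _ _ rfl)
        · refine pure_win (Or.inr (Or.inr (Or.inr ⟨j', o, rfl⟩))) ?_ ?_
          · intro j'' o'' h3
            obtain ⟨rfl, -⟩ := V.reg.inj (Option.some.inj h3)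
            omega
          · rw [nq_lf hj, ce_c]
      | _ => simp [ctrl] at hc
  | @cap _ j' y _ h1 h2 h ho =>
    left
    obtain ⟨rfl, rfl | rfl⟩ := hreg j' y h
    · refine pure_win (Or.inr (Or.inr (Or.inl ⟨j', rfl⟩))) (fun j o h => by simp at h) ?_
      have hu := sm_update val h2 (lf M σ j') none
      rw [ho, nq_lf hj] at hu
      simp only [val, ce] at hu ⊢
      omega
    · rw [lf_self] at ho
      simp at ho
  | @rg _ j' y y' _ hj' h ho hc' =>
    have hnq := nq_move hj' h ho
    rw [nq_lf hj] at hnq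
    by_cases hjj : j' = j
    · subst hjj
      rw [lf_self] at ho
      have hy := Option.some.inj ho
      subst hy
      cases y' with
      | p b => exact Or.inr (Or.inr ⟨b, by rw [lf_set hj]⟩)
      | q => simp [radj] at h
      | c o => simp [radj] at h
      | t =>
        left
        refine win_chal hk (by omega) hc (by simp) (by simp) (by omega)
    · left
      have h3 : Function.update (lf M σ j) j' (some y') j = some .q := by
        rw [Function.update_of_ne (Ne.symm hjj), lf_self]
      refine win_chal hk (by omega) hc ?_ ?_ (by omega)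
      · rw [h3]; simp
      · intro b h4
        rw [h3] at h4
        simp at h4
  | rcap hj h ho => simp [ctrl] at hv

section US

variable {r i k : ℕ}

theorem ctrl_U {v' : V} (hc : ctrl v' = true) (h : cadj M (.U r i k) v' = true) :
    v' = .S r i k := by
  cases v' <;> simp_all [cadj, ctrl]

theorem ctrl_S {v' : V} (hc : ctrl v' = true) (h : cadj M (.S r i k) v' = true) :
    v' = .Z r i k := by
  cases v' <;> simp_all [cadj, ctrl]

theorem ctrl_Z {v' : V} (hc : ctrl v' = true) (h : cadj M (.Z r i k) v' = true) :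
    ∃ k', k = k' + 1 ∧ v' = .X r i k' := by
  cases v' <;> simp_all [cadj, ctrl]

theorem ctrl_R {v' : V} (hc : ctrl v' = true) (h : cadj M (.R r) v' = true) :
    ∃ i, v' = .X r i (us M r i).length := by
  cases v' <;> simp_all [cadj, ctrl]

theorem reg_U {j : ℕ} {y : Y} (h : cadj M (.U r i k) (.reg j y) = true) :
    j = (up M r i k).1 ∧ (y = .q ∨ y = .c none) := by
  rcases y with b | _ | (_ | b) | _ <;> simp_all [cadj]

theorem reg_S {j : ℕ} {y : Y} (h : cadj M (.S r i k) (.reg j y) = true) :
    j = (up M r i k).1 ∧ (y = .q ∨ y = .c (some (up M r i k).2)) := by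
  rcases y with b | _ | (_ | b) | _ <;> simp_all [cadj]

theorem reg_R {j : ℕ} {y : Y} (h : cadj M (.R r) (.reg j y) = true) :
    ∃ b, y = .c (some b) ∧ (j, b) ∈ (rl M r).2.1 := by
  rcases y with b | _ | (_ | b) | _ <;> simp_all [cadj]

end US

end Pool.Agent.R538.Hit
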