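import Pool.Agent.R538.Hit.Bis

/-!
# Hit: parity
-/

namespace Pool.Agent.R538.Hit

open Pool.Agent.H820R2.SS Finset
open Pool.Agent.NPC.ANN (Forces rl pm us up ok3)

/-- the parity of a register token -/
def val : Option Y → ℕ
  | some .q => 1
  | some (.c _) => 1
  | _ => 0

/-- potential of a register token -/
def phi : Option Y → ℕ
  | some (.p _) => 1
  | some .q => 2
  | some (.c _) => 2
  | _ => 0

/-- sums over the registers -/
def sm (w : Option Y → ℕ) (n : ℕ) (ρ : ℕ → Option Y) : ℕ := ∑ j ∈ range n, w (ρ j)

theorem sm_update (w : Option Y → ℕ) {n j : ℕ} (hj : j < n) (ρ : ℕ → Option Y) (y : Option Y) :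
    sm w n (Function.update ρ j y) + w (ρ j) = sm w n ρ + w y := by
  unfold sm
  have h1 := Finset.sum_erase_add (range n) (fun i => w (ρ i)) (mem_range.2 hj)
  have h2 := Finset.sum_erase_add (range n) (fun i => w (Function.update ρ j y i))
    (mem_range.2 hj)
  have h3 : ∑ i ∈ (range n).erase j, w (Function.update ρ j y i) =
      ∑ i ∈ (range n).erase j, w (ρ i) := by
    refine Finset.sum_congr rfl fun i hi => ?_
    rw [Function.update_of_ne (Finset.ne_of_mem_erase hi)]
  simp only [Function.update_self] at h2
  rw [← h1, ← h2, h3]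
  ring

/-- the value of the place of a control token which is out of play -/
def ce : Option V → ℕ
  | some (.reg _ (.c _)) => 1
  | _ => 0

/-- the control token is out of play -/
def pureC (c : Option V) : Prop :=
  c = none ∨ c = some .e0 ∨ (∃ j, c = some (.reg j .q)) ∨ ∃ j o, c = some (.reg j (.c o))

/-- the control token cannot be hit at a challenge vertex -/
def good (s : St) : Prop :=
  ∀ j o, s.1 = some (.reg j (.c o)) → ∀ b, s.2 j = some (.p b) → radj (.p b) (.c o) = false

variable {M : ARM}

theorem exists_one {n : ℕ} {ρ : ℕ → Option Y} (h : 0 < sm val n ρ) :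
    ∃ j < n, ∃ y, ρ j = some y ∧ radj y .t = true := by
  by_contra hno
  push Not at hno
  have : sm val n ρ = 0 := by
    refine Finset.sum_eq_zero fun j hj => ?_
    have h1 := hno j (mem_range.1 hj)
    cases h2 : ρ j with
    | none => rfl
    | some y =>
      have h3 := h1 y h2
      cases y <;> simp_all [radj, val]
  omega

theorem pureC_ne_t {c : Option V} (hc : pureC c) (j : ℕ) : c ≠ some (.reg j .t) := by
  rcases hc with rfl | rfl | ⟨j, rfl⟩ | ⟨j, o, rfl⟩ <;> simp

theorem pureC_ne_p {c : Option V} (hc : pureC c) (j : ℕ) (b : Bool) :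
    c ≠ some (.reg j (.p b)) := by
  rcases hc with rfl | rfl | ⟨j, rfl⟩ | ⟨j, o, rfl⟩ <;> simp

/-- discarding a token of value one -/
theorem kill {c : Option V} {ρ : ℕ → Option Y} {j : ℕ} {y : Y} (hj : j < M.1.length + 1)
    (ho : ρ j = some y) (hy : radj y .t = true) (hc : c ≠ some (.reg j .t)) :
    SStep M (c, ρ) (c, Function.update ρ j (some .t)) ∧
    sm val (M.1.length + 1) (Function.update ρ j (some .t)) + 1 = sm val (M.1.length + 1) ρ ∧
    sm phi (M.1.length + 1) (Function.update ρ j (some .t)) + 2 = sm phi (M.1.length + 1) ρ := by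
  have h1 : val (some y) = 1 ∧ phi (some y) = 2 := by
    cases y <;> simp_all [radj, val, phi]
  refine ⟨.rg hj hy ho hc, ?_, ?_⟩
  · have := sm_update val hj ρ (some .t)
    rw [ho, h1.1] at this
    simpa [val] using this
  · have := sm_update phi hj ρ (some .t)
    rw [ho, h1.2] at this
    simpa [phi] using this

theorem good_kill {c : Option V} {ρ : ℕ → Option Y} {j : ℕ} (h : good (c, ρ)) :
    good (c, Function.update ρ j (some .t)) := by
  intro j' o h1 b h2
  simp only [Function.update_apply] at h2
  split_ifs at h2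
  · simp at h2
  · exact h j' o h1 b h2

theorem ce_c (j : ℕ) (o : Option Bool) : ce (some (.reg j (.c o))) = 1 := rfl

theorem ce_cases {c : Option V} (hc : pureC c) :
    (ce c = 0 ∧ ∀ j o, c ≠ some (.reg j (.c o))) ∨ ∃ j o, c = some (.reg j (.c o)) := by
  rcases hc with rfl | rfl | ⟨j, rfl⟩ | ⟨j, o, rfl⟩
  · left; simp [ce]
  · left; simp [ce]
  · left; simp [ce]
  · right; exact ⟨j, o, rfl⟩

theorem good_e0 (ρ : ℕ → Option Y) : good (some .e0, ρ) := by
  intro j o h
  simp at h

theorem reply {c : Option V} {ρ : ℕ → Option Y} (hc : pureC c)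
    (hv : ∀ j o, c = some (.reg j (.c o)) → j < M.1.length + 1)
    (ho : (sm val (M.1.length + 1) ρ + ce c) % 2 = 1) : ∃ s' : St, SStep M (c, ρ) s' ∧ pureC s'.1 ∧
      (∀ j o, s'.1 = some (.reg j (.c o)) → j < M.1.length + 1) ∧
      (sm val (M.1.length + 1) s'.2 + ce s'.1) % 2 = 0 ∧ good s' ∧
      sm phi (M.1.length + 1) s'.2 + ce s'.1 < sm phi (M.1.length + 1) ρ + ce c := by
  rcases ce_cases hc with ⟨h0, hne⟩ | ⟨j, o, rfl⟩
  · have hn : 0 < sm val (M.1.length + 1) ρ := by omega
    obtain ⟨j, hj, y, hq, hy⟩ := exists_one hn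
    obtain ⟨h1, h2, h3⟩ := kill (M := M) (c := c) hj hq hy (pureC_ne_t hc _)
    refine ⟨_, h1, hc, hv, ?_, ?_, ?_⟩
    · simp only; omega
    · intro j o h
      exact absurd h (hne j o)
    · simp only; omega
  · have hj := hv j o rfl
    refine ⟨(some .e0, ρ), .ctl (by simpa [ok] using hj) rfl rfl (fun j y h => by simp at h),
      Or.inr (Or.inl rfl), (fun j o h => by simp at h), ?_, good_e0 _, ?_⟩
    · simp only [ce] at ho ⊢
      omega
    · simp [ce]

theorem pure_even : ∀ (N : ℕ) (c : Option V) (ρ : ℕ → Option Y), pureC c →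
    (∀ j o, c = some (.reg j (.c o)) → j < M.1.length + 1) → good (c, ρ) →
    sm phi (M.1.length + 1) ρ + ce c ≤ N → (sm val (M.1.length + 1) ρ + ce c) % 2 = 0 →
    Forces (SStep M) false (c, ρ) := by
  intro N
  induction N using Nat.strong_induction_on with
  | _ N ih =>
    intro c ρ hc hv hg hN he
    -- a reply after a decreasing move
    have key : ∀ (c' : Option V) (ρ' : ℕ → Option Y), pureC c' →
        (∀ j o, c' = some (.reg j (.c o)) → j < M.1.length + 1) →
        (sm val (M.1.length + 1) ρ' + ce c') % 2 = 1 →
        sm phi (M.1.length + 1) ρ' + ce c' ≤ sm phi (M.1.length + 1) ρ + ce c →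
        Forces (SStep M) true (c', ρ') := by
      intro c' ρ' hc' hv' ho hle
      obtain ⟨s', h1, h2, h3, h4, h5, h6⟩ := reply hc' hv' ho
      exact .win h1 (ih (N - 1) (by omega) _ _ h2 h3 h5 (by omega) h4)
    refine .lose fun s' hs' => ?_
    cases hs' with
    | @ctl v v' _ h1 h2 h hf =>
      rcases hc with hc | hc | ⟨j, hc⟩ | ⟨j, o, hc⟩
      · simp at hc
      · rw [Option.some.inj hc] at h
        cases v' <;> simp [cadj] at h
      · rw [Option.some.inj hc] at h
        cases v' <;> simp [cadj] at h
      · have hvv : v = .reg j (.c o) := Option.some.inj hc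
        subst hvv
        have hv' : v' = .e0 := by cases v' <;> simp_all [cadj]
        subst hv'
        refine key _ _ (Or.inr (Or.inl rfl)) (fun j o h => by simp at h) ?_ ?_
        · simp [ce] at he ⊢
          omega
        · simp [ce]
    | @cap v j y _ h1 h2 h ho =>
      rcases hc with hc | hc | ⟨j, hc⟩ | ⟨j, o, hc⟩
      · simp at hc
      · rw [Option.some.inj hc] at h
        simp [cadj] at h
      · rw [Option.some.inj hc] at h
        simp [cadj] at h
      · rw [Option.some.inj hc] at h
        simp [cadj] at h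
    | @rg _ j y y' _ hj h ho hc' =>
      have hu := sm_update val hj ρ (some y')
      have hp := sm_update phi hj ρ (some y')
      rw [ho] at hu hp
      cases y with
      | p b =>
        have hy' : radj y' .t = true ∧ val (some y') = 1 ∧ phi (some y') = 2 := by
          cases y' <;> simp_all [radj, val, phi]
        obtain ⟨h3, h4, h5⟩ := kill (M := M) (c := c) (ρ := Function.update ρ j (some y')) hj
          (Function.update_self ..) hy'.1 (pureC_ne_t hc _)
        simp only [hy'.2.1, hy'.2.2] at hp hu
        simp only [val, phi] at hu hp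
        refine .win h3 (ih (N - 1) (by omega) _ _ hc hv ?_ (by omega) ?_)
        · rw [Function.update_idem]
          exact good_kill hg
        · omega
      | q =>
        have hy' : val (some y') = 0 ∧ phi (some y') ≤ 1 := by
          cases y' <;> simp_all [radj, val, phi]
        have h6 := hy'.1
        have h7 := hy'.2
        have h8 : val (some Y.q) = 1 := rfl
        have h9 : phi (some Y.q) = 2 := rfl
        refine key _ _ hc hv ?_ ?_
        · omega
        · omega
      | c o =>
        have hy' : val (some y') = 0 ∧ phi (some y') ≤ 1 := by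
          cases y' <;> simp_all [radj, val, phi]
        have h6 := hy'.1
        have h7 := hy'.2
        have h8 : val (some (Y.c o)) = 1 := rfl
        have h9 : phi (some (Y.c o)) = 2 := rfl
        refine key _ _ hc hv ?_ ?_
        · omega
        · omega
      | t => cases y' <;> simp [radj] at h
    | @rcap j y y' _ hj h ho =>
      cases y' with
      | p b => exact absurd rfl (pureC_ne_p hc _ _)
      | t => exact absurd rfl (pureC_ne_t hc _)
      | c o =>
        exfalso
        cases y with
        | p b =>
          have := hg j o rfl b ho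
          rw [this] at h
          exact absurd h (by decide)
        | _ => simp [radj] at h
      | q =>
        have hu := sm_update val hj ρ (some .q)
        have hp := sm_update phi hj ρ (some .q)
        rw [ho] at hu hp
        have hy : val (some y) = 0 ∧ phi (some y) = 1 := by
          cases y <;> simp_all [radj, val, phi]
        obtain ⟨h3, h4, h5⟩ := kill (M := M) (c := none)
          (ρ := Function.update ρ j (some .q)) hj
          (Function.update_self ..) rfl (by simp)
        have h6 := hy.1
        have h7 := hy.2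
        have h8 : val (some Y.q) = 1 := rfl
        have h9 : phi (some Y.q) = 2 := rfl
        have h10 : ce (some (.reg j .q)) = 0 := rfl
        have h11 : ce none = 0 := rfl
        refine .win h3 (ih (N - 1) (by omega) _ _ (Or.inl rfl) (fun j o h => by simp at h) ?_
          (by omega) (by omega))
        intro j o h
        simp at h

theorem pure_lose {c : Option V} {ρ : ℕ → Option Y} (hc : pureC c)
    (hv : ∀ j o, c = some (.reg j (.c o)) → j < M.1.length + 1) (hg : good (c, ρ))
    (he : (sm val (M.1.length + 1) ρ + ce c) % 2 = 0) : Forces (SStep M) false (c, ρ) :=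
  pure_even _ c ρ hc hv hg le_rfl he

theorem pure_win {c : Option V} {ρ : ℕ → Option Y} (hc : pureC c)
    (hv : ∀ j o, c = some (.reg j (.c o)) → j < M.1.length + 1)
    (ho : (sm val (M.1.length + 1) ρ + ce c) % 2 = 1) : Forces (SStep M) true (c, ρ) := by
  obtain ⟨s', h1, h2, h3, h4, h5, -⟩ := reply hc hv ho
  exact .win h1 (pure_lose h2 h3 h5 h4)

/-- winning by the final vertex -/
theorem win_e0 {v : V} {ρ : ℕ → Option Y} (hv : ok M v = true) (h : cadj M v .e0 = true)
    (ho : sm val (M.1.length + 1) ρ % 2 = 0) : Forces (SStep M) true (some v, ρ) := by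
  refine .win (.ctl hv rfl h (fun j y h => by simp at h)) (pure_lose (Or.inr (Or.inl rfl))
    (fun j o h => by simp at h) (good_e0 _) ?_)
  simp [ce]
  omega

/-- A wrong challenge is answered by a hit. -/
theorem win_hit {j : ℕ} {o : Option Bool} {b : Bool} {ρ : ℕ → Option Y} (hj : j < M.1.length + 1)
    (ho : ρ j = some (.p b)) (h : radj (.p b) (.c o) = true) (hp : sm val (M.1.length + 1) ρ % 2 = 1) :
    Forces (SStep M) true (some (.reg j (.c o)), ρ) := by
  refine .win (.rcap hj h ho) (pure_lose (Or.inl rfl) (fun j o h => by simp at h)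
    (fun j o h => by simp at h) ?_)
  have hu := sm_update val hj ρ (some (.c o))
  rw [ho] at hu
  simp only [val, ce] at hu ⊢
  omega

/-- A challenge at a challenge vertex is successful if it cannot be hit. -/
theorem win_chal {v : V} {j : ℕ} {o : Option Bool} {ρ : ℕ → Option Y} (hv : ok M v = true)
    (hj : j < M.1.length + 1) (h : cadj M v (.reg j (.c o)) = true) (hne : ρ j ≠ some (.c o))
    (hg : ∀ b, ρ j = some (.p b) → radj (.p b) (.c o) = false)
    (hp : sm val (M.1.length + 1) ρ % 2 = 1) : Forces (SStep M) true (some v, ρ) := by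
  refine .win (q := (some (.reg j (.c o)), ρ)) (.ctl hv (by simpa [ok] using hj) h ?_)
    (pure_lose (Or.inr (Or.inr (Or.inr ⟨j, o, rfl⟩))) ?_ ?_ ?_)
  · intro j' y' h1
    obtain ⟨rfl, rfl⟩ := V.reg.inj h1
    exact hne
  · intro j' o' h1
    obtain ⟨rfl, h2⟩ := V.reg.inj (Option.some.inj h1)
    exact hj
  · intro j' o' h1
    obtain ⟨rfl, h2⟩ := V.reg.inj (Option.some.inj h1)
    rw [← Y.c.inj h2]
    exact hg
  · rw [ce_c]
    omega

/-- A challenge that the register `j` is not lifted is successful if it is not. -/
theorem win_chq {v : V} {j : ℕ} {ρ : ℕ → Option Y} (hv : ok M v = true)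
    (hj : j < M.1.length + 1) (h : cadj M v (.reg j .q) = true) (hne : ρ j ≠ some .q)
    (hp : sm val (M.1.length + 1) ρ % 2 = 0) : Forces (SStep M) true (some v, ρ) := by
  refine .win (q := (some (.reg j .q), ρ)) (.ctl hv (by simpa [ok] using hj) h ?_)
    (pure_lose (Or.inr (Or.inr (Or.inl ⟨j, rfl⟩))) ?_ ?_ ?_)
  · intro j' y' h1
    obtain ⟨rfl, rfl⟩ := V.reg.inj h1
    exact hne
  · intro j' o' h1
    simp at h1
  · intro j' o' h1
    simp at h1
  · simp only [ce]
    omega

end Pool.Agent.R538.Hit
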