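import Pool.Agent.R538.Hit.Sim

/-!
# Hit: if the machine does not accept, the first player does not win
-/

namespace Pool.Agent.R538.Hit

open Pool.Agent.H820R2.SS Finset
open Pool.Agent.NPC.ANN (Forces rl pm us up ok3 ok3_iff rl_mem pm_mem up_lt upd_take upd_nil
  upd_take_update ok3_pred)

variable {M : ARM}

/-- positions at which the player to move cannot win -/
inductive NA (M : ARM) : St → Prop
  | G {σ : ℕ → Bool} (h : ¬ Der M.2.2 M.2.1 σ) : NA M (some .G, cf M σ)
  | X {r i k : ℕ} {σ : ℕ → Bool} (hk : ok3 M r i k = true)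
      (h : ¬ Der M.2.2 (pm M r i).1 (upd σ ((us M r i).take k))) :
      NA M (some (.X r i k), cf M σ)
  | U {r i k : ℕ} {σ : ℕ → Bool} (hk : ok3 M r i k = true) (h0 : 0 < k)
      (h : ¬ Der M.2.2 (pm M r i).1 (upd σ ((us M r i).take k))) :
      NA M (some (.U r i k), lf M σ (up M r i k).1)
  | S {r i k : ℕ} {σ : ℕ → Bool} (hk : ok3 M r i k = true) (h0 : 0 < k)
      (hb : σ (up M r i k).1 = (up M r i k).2)
      (h : ¬ Der M.2.2 (pm M r i).1 (upd σ ((us M r i).take k))) :
      NA M (some (.S r i k), cf M σ)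
  | B {σ : ℕ → Bool} : NA M (some .B, cf M σ)

/-- positions at which the player to move does not lose -/
inductive NB (M : ARM) : St → Prop
  | R {r i : ℕ} {σ : ℕ → Bool} (hr : r < M.2.2.length)
      (hg : ∀ g ∈ (rl M r).2.1, σ g.1 = g.2) (hi : i < (rl M r).2.2.length)
      (h : ¬ Der M.2.2 (pm M r i).1 (upd σ (us M r i))) : NB M (some (.R r), cf M σ)
  | U {r i k : ℕ} {σ : ℕ → Bool} (hk : ok3 M r i k = true) (h0 : 0 < k)
      (h : ¬ Der M.2.2 (pm M r i).1 (upd σ ((us M r i).take k))) :
      NB M (some (.U r i k), cf M σ)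
  | S {r i k : ℕ} {σ : ℕ → Bool} (hk : ok3 M r i k = true) (h0 : 0 < k)
      (h : ¬ Der M.2.2 (pm M r i).1 (upd σ ((us M r i).take k))) :
      NB M (some (.S r i k), lf M σ (up M r i k).1)
  | Z {r i k : ℕ} {σ : ℕ → Bool} (hk : ok3 M r i (k + 1) = true)
      (h : ¬ Der M.2.2 (pm M r i).1 (upd σ ((us M r i).take k))) :
      NB M (some (.Z r i (k + 1)), cf M σ)
  | A {σ : ℕ → Bool} : NB M (some .A, cf M σ)

/-- entering a rule -/
theorem enter_R {c : ℕ} {σ : ℕ → Bool} (hM : ARMPr M) (hc : ¬ Der M.2.2 c σ) {r : ℕ}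
    (hr : r < M.2.2.length) (hh : (rl M r).1 = c) :
    N M (some (.R r), cf M σ) ∨ NB M (some (.R r), cf M σ) := by
  by_cases hg : ∀ g ∈ (rl M r).2.1, σ g.1 = g.2
  · right
    by_contra hno
    apply hc
    rw [← hh]
    refine .mk (rl M r) σ (rl_mem hr) hg fun s hs => ?_
    by_contra hs'
    apply hno
    obtain ⟨i, hi, hi'⟩ := List.getElem_of_mem hs
    have : pm M r i = s := by
      unfold pm
      rw [List.getD_eq_getElem _ _ hi, hi']
    refine .R hr hg hi ?_
    unfold us
    rw [this]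
    exact hs'
  · left
    push Not at hg
    obtain ⟨g, hg1, hg2⟩ := hg
    have hj := (hM _ (rl_mem hr)).1 g hg1
    refine win_chal (j := g.1) (o := some g.2) (ok_R hr) (by omega) ?_ ?_ ?_ (by rw [nq_cf])
    · simpa [cadj] using hg1
    · rw [cf_of hj]; simp
    · intro b hb
      rw [cf_of hj] at hb
      have := Y.p.inj (Option.some.inj hb)
      subst this
      simp [radj, hg2]

theorem closeA (hM : ARMPr M) : ∀ s, NA M s → ∀ s', SStep M s s' → N M s' ∨ NB M s' := by
  intro s hs s' hs'
  cases hs with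
  | @G σ h =>
    rcases step_plain (v := .G) rfl rfl rfl (hnone (fun j y => by simp [cadj]) _) hs' with
      h1 | ⟨v', h1, h2, h3, rfl⟩
    · exact Or.inl h1
    · cases v' with
      | A => exact Or.inr .A
      | R r => exact enter_R hM h (by simpa [ok] using h2) (by simpa [cadj] using h3)
      | _ => simp [cadj, ctrl] at h1 h3
  | @X r i k σ hk h =>
    rcases step_plain (v := .X r i k) rfl (by simpa [ok] using hk) rfl
      (hnone (fun j y => by simp [cadj]) _) hs' with h1 | ⟨v', h1, h2, h3, rfl⟩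
    · exact Or.inl h1
    · cases v' with
      | U r' i' k' =>
        simp only [cadj, Bool.and_eq_true, decide_eq_true_eq] at h3
        obtain ⟨rfl, rfl, rfl⟩ := h3
        simp only [ok, Bool.and_eq_true, decide_eq_true_eq] at h2
        exact Or.inr (.U hk h2.1 h)
      | R r' =>
        simp only [cadj, Bool.and_eq_true, decide_eq_true_eq] at h3
        obtain ⟨rfl, h4⟩ := h3
        rw [List.take_zero, upd_nil] at h
        exact enter_R hM h (by simpa [ok] using h2) h4
      | _ => simp [cadj, ctrl] at h1 h3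
  | @U r i k σ hk h0 h =>
    have hj := up_lt hM hk h0
    rcases step_lf (v := .U r i k) (o := none) rfl (okU hk h0) hj (by simp [cadj])
      (fun j' y hh => reg_U hh) rfl hs' with h1 | ⟨v', h1, h2, h3, rfl⟩ | ⟨b, rfl⟩
    · exact Or.inl h1
    · have := ctrl_U h1 h3
      subst this
      exact Or.inr (.S hk h0 h)
    · refine Or.inr (.U hk h0 ?_)
      rw [upd_take_update hk h0]
      exact h
  | @S r i k σ hk h0 hb h =>
    have hj := up_lt hM hk h0
    rcases step_upd (v := .S r i k) rfl (okS hk h0) hj (by simp [cadj])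
      (hregS hM hk h0 hb) hs' with h1 | ⟨v', h1, h2, h3, rfl⟩ | rfl
    · exact Or.inl h1
    · have := ctrl_S h1 h3
      subst this
      obtain ⟨k', rfl⟩ : ∃ k', k = k' + 1 := ⟨k - 1, by omega⟩
      refine Or.inr (.Z hk ?_)
      rw [upd_take hk h0, ← hb, Function.update_eq_self, Nat.add_sub_cancel] at h
      exact h
    · exact Or.inr (.S hk h0 h)
  | @B σ =>
    rcases step_plain (v := .B) rfl rfl rfl (hnone (fun j y => by simp [cadj]) _) hs' with
      h1 | ⟨v', h1, h2, h3, rfl⟩
    · exact Or.inl h1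
    · cases v' with
      | A => exact Or.inr .A
      | _ => simp [cadj, ctrl] at h1 h3

theorem closeB (hM : ARMPr M) : ∀ s, NB M s → ∃ s', SStep M s s' ∧ NA M s' := by
  intro s hs
  cases hs with
  | @R r i σ hr hg hi h =>
    have hk : ok3 M r i (us M r i).length = true := by
      rw [ok3_iff]
      exact ⟨hr, hi, le_rfl⟩
    exact ⟨_, .ctl (v' := .X r i (us M r i).length) (ok_R hr) (by simpa [ok] using hk)
      (by simp [cadj]) (fun j y hh => by simp at hh), .X hk (by rwa [List.take_length])⟩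
  | @U r i k σ hk h0 h =>
    have hj := up_lt hM hk h0
    exact ⟨_, .rg (j := (up M r i k).1) (y' := .q) (by omega) rfl (cf_of hj) (by simp),
      .U hk h0 h⟩
  | @S r i k σ hk h0 h =>
    have hj := up_lt hM hk h0
    refine ⟨_, .rg (j := (up M r i k).1) (y' := .p (up M r i k).2) (by omega) rfl lf_self
      (by simp), ?_⟩
    rw [lf_set hj]
    refine .S hk h0 (by simp) ?_
    rw [upd_take_update hk h0]
    exact h
  | @Z r i k σ hk h =>
    exact ⟨_, .ctl (v' := .X r i k) (okZ hk (Nat.succ_pos k)) (by simpa [ok] using ok3_pred hk)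
      (by simp [cadj]) (fun j y hh => by simp at hh), .X (ok3_pred hk) h⟩
  | @A σ =>
    exact ⟨_, .ctl (v' := .B) rfl rfl rfl (fun j y hh => by simp at hh), .B⟩

/-- The player to move at `G` wins if and only if the machine accepts. -/
theorem win_G (hM : ARMPr M) (σ : ℕ → Bool) :
    N M (some .G, cf M σ) ↔ Der M.2.2 M.2.1 σ := by
  constructor
  · intro h
    by_contra hno
    exact Forces.not_win_of (closeA hM) (closeB hM) (NA.G hno) h
  · intro h
    exact acc hM h .G (Or.inl ⟨rfl, rfl⟩)

/-- the loop -/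
def Lp (M : ARM) (s : St) : Prop := ∃ σ, s = (some .A, cf M σ) ∨ s = (some .B, cf M σ)

theorem Lp_moves : ∀ s, Lp M s → ∀ s', SStep M s s' → N M s' ∨ Lp M s' := by
  rintro s ⟨σ, rfl | rfl⟩ s' hs'
  · rcases step_plain (v := .A) rfl rfl rfl (hnone (fun j y => by simp [cadj]) _) hs' with
      h1 | ⟨v', h1, h2, h3, rfl⟩
    · exact Or.inl h1
    · cases v' with
      | B => exact Or.inr ⟨σ, Or.inr rfl⟩
      | _ => simp [cadj, ctrl] at h1 h3
  · rcases step_plain (v := .B) rfl rfl rfl (hnone (fun j y => by simp [cadj]) _) hs' with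
      h1 | ⟨v', h1, h2, h3, rfl⟩
    · exact Or.inl h1
    · cases v' with
      | A => exact Or.inr ⟨σ, Or.inl rfl⟩
      | _ => simp [cadj, ctrl] at h1 h3

theorem Lp_move : ∀ s, Lp M s → ∃ s', SStep M s s' ∧ Lp M s' := by
  rintro s ⟨σ, rfl | rfl⟩
  · exact ⟨_, .ctl (v' := .B) rfl rfl rfl (fun j y hh => by simp at hh), σ, Or.inr rfl⟩
  · exact ⟨_, .ctl (v' := .A) rfl rfl rfl (fun j y hh => by simp at hh), σ, Or.inl rfl⟩

/-- The player to move at `G` never loses. -/
theorem not_lose_G (σ : ℕ → Bool) : ¬ P M (some .G, cf M σ) := by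
  intro h
  have hA : ¬ N M (some .A, cf M σ) := Forces.not_win_of Lp_moves Lp_move ⟨σ, Or.inl rfl⟩
  cases h with
  | lose h => exact hA (h _ (.ctl (v' := .A) rfl rfl rfl (fun j y hh => by simp at hh)))

theorem lose_I (hM : ARMPr M) (σ : ℕ → Bool) :
    P M (some .I, cf M σ) ↔ Der M.2.2 M.2.1 σ := by
  constructor
  · intro h
    cases h with
    | lose h =>
      rw [← win_G hM]
      exact h _ (.ctl (v' := .G) rfl rfl rfl (fun j y hh => by simp at hh))
  · intro h
    rw [← win_G hM] at h
    refine .lose fun s' hs' => ?_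
    rcases step_plain (v := .I) rfl rfl rfl (hnone (fun j y => by simp [cadj]) _) hs' with
      h1 | ⟨v', h1, h2, h3, rfl⟩
    · exact h1
    · cases v' with
      | G => exact h
      | _ => simp [cadj, ctrl] at h1 h3

theorem not_win_I (σ : ℕ → Bool) : ¬ N M (some .I, cf M σ) := by
  intro h
  cases h with
  | win h hq =>
    rcases step_plain (v := .I) rfl rfl rfl (hnone (fun j y => by simp [cadj]) _) h with
      h1 | ⟨v', h1, h2, h3, rfl⟩
    · exact h1.not_both hq
    · cases v' with
      | G => exact not_lose_G σ hq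
      | _ => simp [cadj, ctrl] at h1 h3

end Pool.Agent.R538.Hit
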