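import Pool.Agent.R538.Hit.Main

/-!
# Hit: if the machine accepts, the first player wins
-/

namespace Pool.Agent.R538.Hit

open Pool.Agent.H820R2.SS Finset
open Pool.Agent.NPC.ANN (Forces rl pm us up ok3 ok3_iff rl_mem pm_mem up_lt upd_take upd_nil
  upd_take_update ok3_pred)

variable {M : ARM}

/-- abbreviation -/
abbrev N (M : ARM) (s : St) : Prop := Forces (SStep M) true s

/-- abbreviation -/
abbrev P (M : ARM) (s : St) : Prop := Forces (SStep M) false s

section upd

variable {r i k : ℕ}

theorem okU (h : ok3 M r i k = true) (h0 : 0 < k) : ok M (.U r i k) = true := by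
  simp [ok, h, h0]

theorem okS (h : ok3 M r i k = true) (h0 : 0 < k) : ok M (.S r i k) = true := by
  simp [ok, h, h0]

theorem okZ (h : ok3 M r i k = true) (h0 : 0 < k) : ok M (.Z r i k) = true := by
  simp [ok, h, h0]

/-- the challenges at `U` can be hit when all registers hold values -/
theorem hregU (hM : ARMPr M) (h : ok3 M r i k = true) (h0 : 0 < k) (σ : ℕ → Bool) (j : ℕ) (y : Y)
    (hc : cadj M (.U r i k) (.reg j y) = true) : j < M.1.length ∧ (y = .q ∨
      ∃ o, y = .c o ∧ radj (.p (σ j)) (.c o) = true) := by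
  obtain ⟨rfl, h1⟩ := reg_U hc
  refine ⟨up_lt hM h h0, ?_⟩
  rcases h1 with rfl | rfl
  · exact Or.inl rfl
  · exact Or.inr ⟨none, rfl, rfl⟩

theorem hregS (hM : ARMPr M) (h : ok3 M r i k = true) (h0 : 0 < k) {σ : ℕ → Bool}
    (hb : σ (up M r i k).1 = (up M r i k).2) (j : ℕ) (y : Y)
    (hc : cadj M (.S r i k) (.reg j y) = true) : j < M.1.length ∧ (y = .q ∨
      ∃ o, y = .c o ∧ radj (.p (σ j)) (.c o) = true) := by
  obtain ⟨rfl, h1⟩ := reg_S hc
  refine ⟨up_lt hM h h0, ?_⟩
  rcases h1 with rfl | rfl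
  · exact Or.inl rfl
  · exact Or.inr ⟨_, rfl, by simp [radj, hb]⟩

theorem hnone {v : V} (h0 : ∀ j y, cadj M v (.reg j y) = false) (σ : ℕ → Bool) (j : ℕ) (y : Y)
    (hc : cadj M v (.reg j y) = true) : j < M.1.length ∧ (y = .q ∨
      ∃ o, y = .c o ∧ radj (.p (σ j)) (.c o) = true) := by
  rw [h0] at hc
  exact absurd hc (by decide)

/-- the register is set to the wrong value -/
theorem wrong {σ : ℕ → Bool} (hM : ARMPr M) (h : ok3 M r i k = true) (h0 : 0 < k)
    (hne : σ (up M r i k).1 ≠ (up M r i k).2) : N M (some (.S r i k), cf M σ) := by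
  have hj := up_lt hM h h0
  refine win_chal (j := (up M r i k).1) (o := some (up M r i k).2) (okS h h0) (by omega) ?_ ?_ ?_
    (by rw [nq_cf])
  · simp [cadj]
  · rw [cf_of hj]; simp
  · intro b hb
    rw [cf_of hj] at hb
    have := Y.p.inj (Option.some.inj hb)
    subst this
    simp [radj, hne]

/-- the lifted register at `S`, the next player has to set it -/
theorem lose_S {σ : ℕ → Bool} (hM : ARMPr M) (h : ok3 M r i k = true) (h0 : 0 < k)
    (hS : N M (some (.S r i k), cf M (Function.update σ (up M r i k).1 (up M r i k).2))) :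
    P M (some (.S r i k), lf M σ (up M r i k).1) := by
  have hj := up_lt hM h h0
  refine .lose fun s' hs' => ?_
  rcases step_lf (v := .S r i k) (o := some (up M r i k).2) rfl (okS h h0) hj (by simp [cadj])
    (fun j' y hh => reg_S hh) rfl hs' with h1 | ⟨v', h1, h2, h3, rfl⟩ | ⟨b, rfl⟩
  · exact h1
  · have := ctrl_S h1 h3
    subst this
    exact win_e0 h2 rfl (by rw [nq_lf hj])
  · by_cases hb : b = (up M r i k).2
    · rw [hb]
      exact hS
    · exact wrong hM h h0 (by simpa using hb)

/-- the register can be lifted at `U` -/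
theorem lose_U {σ : ℕ → Bool} (hM : ARMPr M) (h : ok3 M r i k = true) (h0 : 0 < k)
    (hS : N M (some (.S r i k), cf M (Function.update σ (up M r i k).1 (up M r i k).2))) :
    P M (some (.U r i k), cf M σ) := by
  have hj := up_lt hM h h0
  refine .lose fun s' hs' => ?_
  rcases step_upd (v := .U r i k) rfl (okU h h0) hj (by simp [cadj])
    (hregU hM h h0 σ) hs' with h1 | ⟨v', h1, h2, h3, rfl⟩ | rfl
  · exact h1
  · have := ctrl_U h1 h3
    subst this
    by_cases hb : σ (up M r i k).1 = (up M r i k).2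
    · rw [← hb, Function.update_eq_self] at hS
      exact hS
    · exact wrong hM h h0 hb
  · refine .win (q := (some (.S r i k), lf M σ (up M r i k).1))
      (.ctl (okU h h0) (okS h h0) (by simp [cadj]) (fun j y hh => by simp at hh)) ?_
    exact lose_S hM h h0 hS

theorem chain (hM : ARMPr M) {σ : ℕ → Bool} (h : ok3 M r i k = true)
    (hX : N M (some (.X r i 0), cf M (upd σ ((us M r i).take k)))) :
    N M (some (.X r i k), cf M σ) := by
  induction k generalizing σ with
  | zero =>
    rw [List.take_zero, upd_nil] at hX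
    exact hX
  | succ k ih =>
    have h0 : 0 < k + 1 := Nat.succ_pos k
    have hk := ok3_pred h
    rw [upd_take h h0, Nat.add_sub_cancel] at hX
    have h1 := ih hk hX
    -- the vertex `Z`
    have h2 : P M (some (.Z r i (k + 1)),
        cf M (Function.update σ (up M r i (k + 1)).1 (up M r i (k + 1)).2)) := by
      refine .lose fun s' hs' => ?_
      rcases step_plain (v := .Z r i (k + 1)) rfl (okZ h h0) rfl
        (hnone (fun j y => by simp [cadj]) _) hs' with h3 | ⟨v', h3, h4, h5, rfl⟩
      · exact h3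
      · obtain ⟨k', h6, rfl⟩ := ctrl_Z h3 h5
        have h7 : k' = k := by omega
        subst h7
        exact h1
    have h3 : N M (some (.S r i (k + 1)),
        cf M (Function.update σ (up M r i (k + 1)).1 (up M r i (k + 1)).2)) :=
      .win (.ctl (okS h h0) (okZ h h0) (by simp [cadj]) (fun j y hh => by simp at hh)) h2
    exact .win (.ctl (v' := .U r i (k + 1)) (by simpa [ok] using h) (okU h h0) (by simp [cadj])
      (fun j y hh => by simp at hh)) (lose_U hM h h0 h3)

end upd

theorem ok_R {r : ℕ} (h : r < M.2.2.length) : ok M (.R r) = true := by simpa [ok] using h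

theorem hregR (hM : ARMPr M) {r : ℕ} (hr : r < M.2.2.length) {σ : ℕ → Bool}
    (hg : ∀ g ∈ (rl M r).2.1, σ g.1 = g.2) (j : ℕ) (y : Y)
    (hc : cadj M (.R r) (.reg j y) = true) : j < M.1.length ∧ (y = .q ∨
      ∃ o, y = .c o ∧ radj (.p (σ j)) (.c o) = true) := by
  obtain ⟨b, rfl, hb⟩ := reg_R hc
  refine ⟨(hM _ (rl_mem hr)).1 _ hb, Or.inr ⟨_, rfl, ?_⟩⟩
  have := hg _ hb
  simp only at this
  simp [radj, this]

theorem acc (hM : ARMPr M) {c : ℕ} {ρ : ℕ → Bool} (h : Der M.2.2 c ρ) : ∀ v : V,
    (v = .G ∧ c = M.2.1) ∨ (∃ r i, v = .X r i 0 ∧ ok3 M r i 0 = true ∧ c = (pm M r i).1) →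
    N M (some v, cf M ρ) := by
  induction h with
  | mk rule ρ hr hg hp ih =>
    intro v hv
    obtain ⟨r, hr1, hr2⟩ := List.getElem_of_mem hr
    have hrl : rl M r = rule := by
      unfold rl
      rw [List.getD_eq_getElem _ _ hr1, hr2]
    have hlose : P M (some (.R r), cf M ρ) := by
      refine .lose fun s' hs' => ?_
      rcases step_plain (v := .R r) rfl (ok_R hr1) rfl
        (hregR hM hr1 (by rw [hrl]; exact hg)) hs' with h3 | ⟨v', h3, h4, h5, rfl⟩
      · exact h3
      · obtain ⟨i, rfl⟩ := ctrl_R h3 h5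
        have h6 : ok3 M r i (us M r i).length = true := by simpa [ok] using h4
        have h6' := ok3_iff.1 h6
        have h7 : pm M r i ∈ rule.2.2 := by
          rw [← hrl]
          exact pm_mem h6'.2.1
        refine chain hM h6 ?_
        rw [List.take_length]
        exact ih _ h7 _ (Or.inr ⟨r, i, rfl, by rw [ok3_iff]; omega, rfl⟩)
    rcases hv with ⟨rfl, hc⟩ | ⟨r', i', rfl, hk, hc⟩
    · exact .win (.ctl (v' := .R r) rfl (ok_R hr1) (by simp [cadj, hrl, hc])
        (fun j y hh => by simp at hh)) hlose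
    · exact .win (.ctl (v' := .R r) (by simpa [ok] using hk) (ok_R hr1) (by simp [cadj, hrl, hc])
        (fun j y hh => by simp at hh)) hlose

end Pool.Agent.R538.Hit
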