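import Pool.Agent.H578R2.ANN.PolyI

/-!
# Hit: the game, and the board of an alternating register machine
-/

namespace Pool.Agent.R538.Hit

open Pool.Agent.H820R2.SS
open Pool.Agent.NPC.ANN (Forces rl pm us up ok3)

/-- A move of Hit.  A position assigns to every vertex the type of the token on it, or
`none`; `E i u v` says that tokens of type `i` may use the edge `(u, v)`.  A token of type `i` is
slid from `u` to `v`; if `v` holds a token, that token is deleted. -/
def GMove {V : Type} [DecidableEq V] (E : ℕ → V → V → Prop) (P Q : V → Option ℕ) : Prop :=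
  ∃ (i : ℕ) (u v : V), P u = some i ∧ E i u v ∧
    Q = Function.update (Function.update P u none) v (some i)

/-- Positions of a register token in its region: holding a value, lifted, challenge vertices,
dead. -/
inductive Y : Type
  | p (b : Bool)
  | q
  | c (o : Option Bool)
  | t
  deriving DecidableEq

/-- Vertices. -/
inductive V : Type
  | G | I | A | B | e0
  | R (r : ℕ)
  | X (r i k : ℕ)
  | U (r i k : ℕ)
  | S (r i k : ℕ)
  | Z (r i k : ℕ)
  | reg (j : ℕ) (y : Y)
  deriving DecidableEq

/-- the vertices which are used; the region number `M.1.length` is used for the tempo token -/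
def ok (M : ARM) : V → Bool
  | .R r => decide (r < M.2.2.length)
  | .X r i k => ok3 M r i k
  | .U r i k => decide (0 < k) && ok3 M r i k
  | .S r i k => decide (0 < k) && ok3 M r i k
  | .Z r i k => decide (0 < k) && ok3 M r i k
  | .reg j _ => decide (j < M.1.length + 1)
  | _ => true

/-- edges of the control token -/
def cadj (M : ARM) : V → V → Bool
  | .reg _ (.c _), .e0 => true
  | .G, .A => true
  | .G, .e0 => true
  | .G, .R r => decide ((rl M r).1 = M.2.1)
  | .I, .G => true
  | .I, .e0 => true
  | .A, .B => true
  | .A, .e0 => true
  | .B, .A => true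
  | .B, .e0 => true
  | .R _, .e0 => true
  | .R r, .reg j (.c (some b)) => decide ((j, b) ∈ (rl M r).2.1)
  | .R r, .X r' i k => decide (r = r') && decide (k = (us M r' i).length)
  | .X _ _ _, .e0 => true
  | .X r i k, .U r' i' k' => decide (r = r') && (decide (i = i') && decide (k = k'))
  | .X r i k, .R r' => decide (k = 0) && decide ((rl M r').1 = (pm M r i).1)
  | .U r i k, .S r' i' k' => decide (r = r') && (decide (i = i') && decide (k = k'))
  | .U r i k, .reg j .q => decide (j = (up M r i k).1)
  | .U r i k, .reg j (.c none) => decide (j = (up M r i k).1)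
  | .S r i k, .Z r' i' k' => decide (r = r') && (decide (i = i') && decide (k = k'))
  | .S r i k, .reg j .q => decide (j = (up M r i k).1)
  | .S r i k, .reg j (.c (some b)) => decide (j = (up M r i k).1) && decide (b = (up M r i k).2)
  | .Z _ _ _, .e0 => true
  | .Z r i k, .X r' i' k' => decide (r = r') && (decide (i = i') && decide (k = k' + 1))
  | _, _ => false

/-- moves of a register token -/
def radj : Y → Y → Bool
  | .p _, .q => true
  | .p _, .c none => true
  | .p b, .c (some b') => decide (b = b')
  | .q, .p _ => true
  | .q, .t => true
  | .c _, .t => true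
  | _, _ => false

/-- edges of register tokens -/
def radjV : V → V → Bool
  | .reg j y, .reg j' y' => decide (j = j') && radj y y'
  | _, _ => false

/-- The edges of tokens of type `i`. -/
def EE (M : ARM) (i : ℕ) (u v : V) : Prop :=
  ok M u = true ∧ ok M v = true ∧
    (bif decide (i = 0) then cadj M u v else decide (i = 1) && radjV u v) = true

/-- Abstract positions: place of the control token, places of the register tokens. -/
abbrev St : Type := Option V × (ℕ → Option Y)

/-- The position on the board. -/
def place (s : St) (v : V) : Option ℕ :=
  if s.1 = some v then some 0 else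
    match v with
    | .reg j y => if s.2 j = some y then some 1 else none
    | _ => none

/-- Moves between abstract positions. -/
inductive SStep (M : ARM) : St → St → Prop
  | ctl {v v' : V} {ρ : ℕ → Option Y} (h1 : ok M v = true) (h2 : ok M v' = true)
      (h : cadj M v v' = true) (hf : ∀ j y, v' = .reg j y → ρ j ≠ some y) :
      SStep M (some v, ρ) (some v', ρ)
  | cap {v : V} {j : ℕ} {y : Y} {ρ : ℕ → Option Y} (h1 : ok M v = true) (h2 : j < M.1.length + 1)
      (h : cadj M v (.reg j y) = true) (ho : ρ j = some y) :
      SStep M (some v, ρ) (some (.reg j y), Function.update ρ j none)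
  | rg {c : Option V} {j : ℕ} {y y' : Y} {ρ : ℕ → Option Y} (hj : j < M.1.length + 1)
      (h : radj y y' = true) (ho : ρ j = some y) (hc : c ≠ some (.reg j y')) :
      SStep M (c, ρ) (c, Function.update ρ j (some y'))
  | rcap {j : ℕ} {y y' : Y} {ρ : ℕ → Option Y} (hj : j < M.1.length + 1)
      (h : radj y y' = true) (ho : ρ j = some y) :
      SStep M (some (.reg j y'), ρ) (none, Function.update ρ j (some y'))

/-- no vertex holds two tokens -/
def Inv (s : St) : Prop := ∀ j y, s.1 = some (.reg j y) → s.2 j ≠ some y

theorem radj_ne {y y' : Y} (h : radj y y' = true) : y ≠ y' := by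
  rintro rfl
  cases y <;> simp [radj] at h

theorem cadj_ne {M : ARM} {v v' : V} (h : cadj M v v' = true) : v ≠ v' := by
  rintro rfl
  cases v with
  | reg j y => rcases y with b | _ | (_ | b) | _ <;> simp [cadj] at h
  | _ => simp [cadj] at h

theorem SStep.inv {M : ARM} {s s' : St} (h : SStep M s s') (hs : Inv s) : Inv s' := by
  cases h with
  | ctl h1 h2 h hf =>
    intro j y hj
    exact hf j y (Option.some.inj hj)
  | cap h1 h2 h ho =>
    intro j y hj
    obtain ⟨rfl, rfl⟩ := V.reg.inj (Option.some.inj hj)
    simp
  | rg hj h ho hc =>
    intro j' y' h1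
    simp only [Function.update_apply]
    split_ifs with h2
    · subst h2
      intro h3
      rw [Option.some.inj h3] at hc
      exact hc h1
    · exact hs j' y' h1
  | rcap hj h ho =>
    intro j y h1
    simp at h1

end Pool.Agent.R538.Hit
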